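import Pool.Agent.N756.CF.E
import Pool.Agent.R460.GH.Conv

/-!
# The values of Carmichael's function are sums of two totients

Let `λ(m)` be Carmichael's function, the exponent of the group of the units of the integers modulo `m`. For almost all
positive integers `m` the even integer `λ(m)` is a sum `φ(p) + φ(q)` with primes `p`, `q`, with the number of
representations predicted by Hardy and Littlewood for `λ(m) + 2 = p + q`. The same is true for `λ(m) + a` for every even
integer `a ≠ -2`.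

Proof. The function `λ` is not multiplicative: `λ(q u)` is the least common multiple of `λ(q)` and `λ(u)` for coprime `q`,
`u`, and `λ(m)` is for almost all `m` smaller than `m` by more than every power of the logarithm. Write `m = q u`, where
`q` is composed of the primes `≤ z = x^(1/(J+1))`. Then `λ(m) = λ(q) w` lies in the class `0` modulo `λ(q)`, and `w ≤ x / q`,
so that nothing is lost when the theorem on Goldbach representations in the residue classes of every modulus (`R460/GH`,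
starting files) is applied to the class of `a` modulo `λ(q)` up to `λ(q) x / q`. For a prime factor `p` of `u` the number
`(p - 1) / gcd(p - 1, λ(q))` is a divisor of `w`, hence every value `w` is taken rarely provided that all these greatest
common divisors are at most a power of the logarithm. This holds for almost all `m`: a prime `l > (1 + log log x)^3`
divides `p - 1` and `p' - 1` for two prime factors of `m` only rarely (Brun-Titchmarsh inequality), and `p - 1` has rarely a
large divisor composed of smaller primes (method of Rankin). The frame of the proof is that of helper733 (`N733/TG`) for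
multiplicative functions.
-/

set_option autoImplicit false

namespace Pool.Agent.Results.MP_9227a1_nt.CarmichaelFunction

open Finset Filter Topology
open Pool.Agent.H560R3.GB (g HL sing)

/-- The function of Carmichael: the exponent of the group of the units of the integers modulo `m`. -/
def lam (m : ℕ) : ℕ := ArithmeticFunction.carmichael m

/-- The number of primes `p` with `y₁ < p ≤ y₂` such that `n - p` is a prime. -/
def count (n y₁ y₂ : ℕ) : ℕ := ((Ioc y₁ y₂).filter (fun p => p.Prime ∧ (n - p).Prime)).card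

/-- (1) The formula of Hardy and Littlewood for `g n` holds with a relative error of at most `ε`; (2) in every
window `(y₁, y₂] ⊆ (0, n]` of a length of at least `n / (log n)^W` the number of primes `p` such that `n - p` is a
prime is `sing n * (y₂ - y₁) / (log n)²` with a relative error of at most `ε`. -/
def Formula (ε : ℝ) (W n : ℕ) : Prop :=
  |(g n : ℝ) - HL n| ≤ ε * HL n ∧
  ∀ y₁ y₂ : ℕ, y₁ < y₂ → y₂ ≤ n → (n : ℝ) / Real.log n ^ W ≤ (y₂ : ℝ) - y₁ →
    |(count n y₁ y₂ : ℝ) - sing n * ((y₂ : ℝ) - y₁) / Real.log n ^ 2| ≤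
      ε * (sing n * ((y₂ : ℝ) - y₁) / Real.log n ^ 2)

open Classical in
/-- The proportion of the positive integers `m ≤ N` without the property `P` tends to `0`. -/
def AlmostAll (P : ℕ → Prop) : Prop :=
  Tendsto (fun N : ℕ => (((Icc 1 N).filter (fun m => ¬ P m)).card : ℝ) / N) atTop (𝓝 0)

/-- The number of the pairs of primes `(p, q)` with `φ(p) + φ(q) = v`. -/
noncomputable def pairs (v : ℕ) : ℕ :=
  {z : ℕ × ℕ | z.1.Prime ∧ z.2.Prime ∧ Nat.totient z.1 + Nat.totient z.2 = v}.ncard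

theorem cnt_eq (n : ℕ) : Pool.Agent.W93.PG.cnt n 0 n = g n := by
  unfold Pool.Agent.W93.PG.cnt g
  refine card_bij (fun p _ => (p, n - p)) ?_ ?_ ?_
  · intro p hp
    rw [mem_filter, mem_Ioc] at hp
    rw [mem_filter, HasAntidiagonal.mem_antidiagonal]
    exact ⟨by simp only; omega, hp.2⟩
  · intro p _ p' _ h
    exact congrArg Prod.fst h
  · rintro ⟨a, b⟩ h
    rw [mem_filter, HasAntidiagonal.mem_antidiagonal] at h
    obtain ⟨h1, h2, h3⟩ := h
    simp only at h1 h2 h3
    have ha := h2.pos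
    refine ⟨a, ?_, ?_⟩
    · rw [mem_filter, mem_Ioc]
      refine ⟨⟨ha, by omega⟩, h2, ?_⟩
      have : n - a = b := by omega
      rw [this]
      exact h3
    · have : n - a = b := by omega
      simp [this]

theorem formula_of (ε : ℝ) (W : ℕ) : ∃ n₀ : ℕ, ∀ n : ℕ, n₀ ≤ n → 2 ∣ n →
    Pool.Agent.W93.PG.WinP ε W n → Formula ε W n := by
  refine ⟨3, fun n hn _ hw => ⟨?_, hw⟩⟩
  have hn3 : (3 : ℝ) ≤ n := by exact_mod_cast hn
  have hL1 : 1 ≤ Real.log n := by
    rw [Real.le_log_iff_exp_le (by linarith)]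
    have := Real.exp_one_lt_d9
    linarith
  have h1 := hw 0 n (by omega) le_rfl (by
    rw [Nat.cast_zero, sub_zero]
    exact div_le_self (Nat.cast_nonneg _) (one_le_pow₀ hL1))
  rw [cnt_eq] at h1
  have e : sing n * ((n : ℝ) - ((0 : ℕ) : ℝ)) / Real.log n ^ 2 = HL n := by
    unfold Pool.Agent.H560R3.GB.HL
    push_cast
    ring
  rw [e] at h1
  exact h1

/-- the exceptional set in the classes `a` modulo `q` -/
theorem eb (ε : ℝ) (hε : 0 < ε) (W : ℕ) (a : ℤ) (ha : a ≠ 0) (A : ℕ) :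
    Pool.Agent.N733.TG.EB a (fun n => 2 ∣ n → Formula ε W n) A := by
  obtain ⟨x₀, hx₀⟩ := Pool.Agent.R460.GH.class_asymp (Formula ε W) ε hε W (formula_of ε W) (1 / 6) (by norm_num) A 1
  have hlog := Real.tendsto_log_atTop.eventually_ge_atTop (a.natAbs : ℝ)
  rw [eventually_atTop] at hlog
  obtain ⟨x₁, hx₁⟩ := hlog
  refine ⟨max x₀ (max x₁ 1), fun X hX q hq hqX V hV => ?_⟩
  have hX0 : x₀ ≤ X := le_trans (le_max_left _ _) hX
  have hX1 : x₁ ≤ X := le_trans (le_trans (le_max_left _ _) (le_max_right _ _)) hX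
  have hX2 : (1 : ℝ) ≤ X := le_trans (le_trans (le_max_right _ _) (le_max_right _ _)) hX
  have hq' : (q : ℝ) ≤ X ^ ((2 : ℝ) / 3 - 1 / 6) := by
    rw [show (2 : ℝ) / 3 - 1 / 6 = 1 / 2 by norm_num, ← Real.sqrt_eq_rpow]
    exact Real.le_sqrt_of_sq_le hqX
  have hgcd : (Int.gcd a q : ℝ) ≤ Real.log X ^ 1 := by
    rw [pow_one]
    refine le_trans ?_ (hx₁ X hX1)
    have : Int.gcd a q ≤ a.natAbs := Nat.le_of_dvd (Int.natAbs_pos.2 ha) (Nat.gcd_dvd_left _ _)
    exact_mod_cast this
  obtain ⟨hfin, hcard⟩ := hx₀ X hX0 q hq hq' a hgcd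
  refine le_trans ?_ hcard
  have h1 : (V.image (fun v : ℕ => ((q : ℤ) * v + a).toNat)).card = V.card := by
    apply card_image_of_injOn
    intro v hv w hw h
    have e1 := (hV v hv).1
    have e2 := (hV w hw).1
    simp only at h
    have e3 : (q : ℤ) * v + a = (q : ℤ) * w + a := by omega
    have e4 : (q : ℤ) * v = (q : ℤ) * w := by linarith
    have e5 : (v : ℤ) = w := mul_left_cancel₀ (by exact_mod_cast (by omega : q ≠ 0)) e4
    exact_mod_cast e5
  rw [← h1, ← Set.ncard_coe_finset]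
  have h2 : ((V.image (fun v : ℕ => ((q : ℤ) * v + a).toNat)) : Set ℕ).ncard ≤
      ({n : ℕ | 0 < n ∧ (n : ℝ) ≤ X ∧ 2 ∣ n ∧ (n : ℤ) ≡ a [ZMOD q] ∧ ¬ Formula ε W n}).ncard := by
    apply Set.ncard_le_ncard _ hfin
    intro n hn
    rw [mem_coe, mem_image] at hn
    obtain ⟨v, hv, rfl⟩ := hn
    obtain ⟨e1, e2, e3⟩ := hV v hv
    have e4 : ((((q : ℤ) * v + a).toNat : ℕ) : ℤ) = (q : ℤ) * v + a := Int.toNat_of_nonneg e1.le
    push Not at e3
    refine ⟨by omega, ?_, e3.1, ?_, e3.2⟩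
    · have e5 : ((((q : ℤ) * v + a).toNat : ℕ) : ℝ) = (((q : ℤ) * v + a : ℤ) : ℝ) := by
        rw [← Int.cast_natCast, e4]
      rw [e5]
      exact e2
    · rw [e4, Int.modEq_iff_dvd]
      exact ⟨-(v : ℤ), by ring⟩
  exact_mod_cast h2

open Classical in
theorem almostAll_iff (P : ℕ → Prop) : AlmostAll P ↔ ∀ ε : ℝ, 0 < ε → ∃ N₀ : ℕ, ∀ N : ℕ, N₀ ≤ N →
    (((Icc 1 N).filter (fun m => ¬ P m)).card : ℝ) ≤ ε * N := by
  unfold AlmostAll
  rw [Metric.tendsto_atTop]
  constructor
  · intro h ε hε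
    obtain ⟨N₀, hN₀⟩ := h ε hε
    refine ⟨max N₀ 1, fun N hN => ?_⟩
    have h1 := hN₀ N (le_trans (le_max_left _ _) hN)
    have h2 : (0 : ℝ) < N := by exact_mod_cast (le_trans (le_max_right N₀ 1) hN)
    rw [Real.dist_eq, sub_zero, abs_of_nonneg (by positivity), div_lt_iff₀ h2] at h1
    exact h1.le
  · intro h ε hε
    obtain ⟨N₀, hN₀⟩ := h (ε / 2) (by positivity)
    refine ⟨max N₀ 1, fun N hN => ?_⟩
    have h1 := hN₀ N (le_trans (le_max_left _ _) hN)
    have h2 : (0 : ℝ) < N := by exact_mod_cast (le_trans (le_max_right N₀ 1) hN)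
    rw [Real.dist_eq, sub_zero, abs_of_nonneg (by positivity), div_lt_iff₀ h2]
    nlinarith

theorem almostAll_and {P Q R : ℕ → Prop} (hP : AlmostAll P) (hQ : AlmostAll Q) (m₀ : ℕ)
    (h : ∀ m, m₀ ≤ m → P m → Q m → R m) : AlmostAll R := by
  classical
  rw [almostAll_iff] at *
  intro ε hε
  obtain ⟨N₁, h₁⟩ := hP (ε / 3) (by positivity)
  obtain ⟨N₂, h₂⟩ := hQ (ε / 3) (by positivity)
  obtain ⟨N₃, h₃⟩ := exists_nat_gt (3 * m₀ / ε)
  refine ⟨max N₁ (max N₂ N₃), fun N hN => ?_⟩
  have b1 := h₁ N (le_trans (le_max_left _ _) hN)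
  have b2 := h₂ N (le_trans (le_trans (le_max_left _ _) (le_max_right _ _)) hN)
  have b3 : (N₃ : ℝ) ≤ N := by exact_mod_cast (le_trans (le_trans (le_max_right _ _) (le_max_right _ _)) hN)
  have b4 : (m₀ : ℝ) ≤ ε / 3 * N := by
    have : 3 * m₀ / ε ≤ N := by linarith
    rw [div_le_iff₀ hε] at this
    linarith
  have hsub : (Icc 1 N).filter (fun m => ¬ R m) ⊆
      ((Icc 1 N).filter (fun m => ¬ P m) ∪ (Icc 1 N).filter (fun m => ¬ Q m)) ∪ Icc 1 m₀ := by
    intro m hm
    rw [mem_filter, mem_Icc] at hm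
    rw [mem_union, mem_union, mem_filter, mem_filter, mem_Icc, mem_Icc]
    by_cases h1 : P m
    · by_cases h2 : Q m
      · by_cases h3 : m₀ ≤ m
        · exact absurd (h m h3 h1 h2) hm.2
        · right
          omega
      · left; right
        exact ⟨hm.1, h2⟩
    · left; left
      exact ⟨hm.1, h1⟩
  have hc : ((Icc 1 N).filter (fun m => ¬ R m)).card ≤
      (((Icc 1 N).filter (fun m => ¬ P m)).card + ((Icc 1 N).filter (fun m => ¬ Q m)).card) + m₀ := by
    refine (card_le_card hsub).trans ((card_union_le _ _).trans ?_)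
    have := card_union_le ((Icc 1 N).filter (fun m => ¬ P m)) ((Icc 1 N).filter (fun m => ¬ Q m))
    rw [Nat.card_Icc]
    omega
  have hc' : (((Icc 1 N).filter (fun m => ¬ R m)).card : ℝ) ≤
      ((((Icc 1 N).filter (fun m => ¬ P m)).card : ℝ) + ((Icc 1 N).filter (fun m => ¬ Q m)).card) + m₀ := by
    exact_mod_cast hc
  linarith

theorem card_mono' {N : ℕ} {P Q : ℕ → Prop} {dP : DecidablePred P} {dQ : DecidablePred Q} (h : ∀ m, P m → Q m) :
    (@Finset.filter _ P dP (Icc 1 N)).card ≤ (@Finset.filter _ Q dQ (Icc 1 N)).card :=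
  card_le_card (fun m hm => Finset.mem_filter.2 ⟨(Finset.mem_filter.1 hm).1, h m (Finset.mem_filter.1 hm).2⟩)

theorem lam_even {m : ℕ} (hm : 3 ≤ m) : Even (lam m) := by
  by_contra h
  rw [Nat.not_even_iff_odd] at h
  have h1 := ArithmeticFunction.pow_carmichael (n := m) (-1)
  rw [show ArithmeticFunction.carmichael m = lam m from rfl, h.neg_one_pow] at h1
  have h2 : (-1 : ZMod m) = 1 := by
    have := congrArg (fun u : (ZMod m)ˣ => (u : ZMod m)) h1
    simpa using this
  haveI : Fact (2 < m) := ⟨by omega⟩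
  exact ZMod.neg_one_ne_one h2

theorem general (a : ℤ) (ε : ℝ) (W : ℕ) (ha : a ≠ 0) (hε : 0 < ε) :
    AlmostAll (fun m => 0 < (lam m : ℤ) + a ∧ (Even ((lam m : ℤ) + a) → Formula ε W ((lam m : ℤ) + a).toNat)) := by
  classical
  rw [almostAll_iff]
  intro δ hδ
  obtain ⟨N₀, h⟩ := Pool.Agent.N756.CF.dens2 a (fun n => 2 ∣ n → Formula ε W n) (eb ε hε W a ha) δ hδ
  refine ⟨N₀, fun N hN => le_trans (Nat.cast_le.2 (card_mono' ?_)) (h N hN)⟩
  intro m hm h1
  refine hm ⟨h1.1, fun h2 => h1.2 ?_⟩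
  rw [even_iff_two_dvd] at h2
  have h3 : ((((lam m : ℤ) + a).toNat : ℕ) : ℤ) = (lam m : ℤ) + a :=
    Int.toNat_of_nonneg h1.1.le
  have h4 : (2 : ℤ) ∣ ((((lam m : ℤ) + a).toNat : ℕ) : ℤ) := by rw [h3]; exact h2
  exact_mod_cast h4

theorem pairs_eq (v : ℕ) : pairs v = g (v + 2) := by
  unfold pairs g
  rw [← Set.ncard_coe_finset]
  congr 1
  ext z
  rw [mem_coe, mem_filter, HasAntidiagonal.mem_antidiagonal, Set.mem_ofPred_eq]
  constructor
  · rintro ⟨h1, h2, h3⟩
    rw [Nat.totient_prime h1, Nat.totient_prime h2] at h3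
    have := h1.pos
    have := h2.pos
    exact ⟨by omega, h1, h2⟩
  · rintro ⟨h3, h1, h2⟩
    refine ⟨h1, h2, ?_⟩
    rw [Nat.totient_prime h1, Nat.totient_prime h2]
    have := h1.pos
    have := h2.pos
    omega

theorem HL_pos {n : ℕ} (hn : 2 ≤ n) : 0 < HL n := by
  unfold Pool.Agent.H560R3.GB.HL
  have h1 := Pool.Agent.W93.GB.one_le_sing n
  have h2 : (2 : ℝ) ≤ n := by exact_mod_cast hn
  have h3 : 0 < Real.log n := Real.log_pos (by linarith)
  have h4 : 0 < sing n := by linarith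
  positivity

/-- diagonal argument -/
theorem diagonal {P : ℕ → ℕ → Prop} (hmono : ∀ i j m, i ≤ j → P j m → P i m) (h : ∀ j, AlmostAll (P j)) :
    ∃ κ : ℕ → ℕ, Tendsto κ atTop atTop ∧ AlmostAll (fun m => P (κ m) m) := by
  classical
  have h1 : ∀ j : ℕ, ∃ N₀ : ℕ, ∀ N : ℕ, N₀ ≤ N →
      (((Icc 1 N).filter (fun m => ¬ P j m)).card : ℝ) ≤ 1 / ((j : ℝ) + 1) * N := by
    intro j
    have h2 := (almostAll_iff (P j)).1 (h j) (1 / ((j : ℝ) + 1)) (by positivity)
    obtain ⟨N₀, hN₀⟩ := h2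
    exact ⟨N₀, fun N hN => le_trans (Nat.cast_le.2 (card_mono' fun m hm => hm)) (hN₀ N hN)⟩
  choose A hA using h1
  -- `κ m` is the largest `j ≤ m` with `A j ≤ m`
  set κ : ℕ → ℕ := fun m => Nat.findGreatest (fun j => A j ≤ m) m with hκ
  have hκmono : Monotone κ := by
    intro m n hmn
    rw [hκ]
    simp only
    exact Nat.findGreatest_mono (fun j hj => le_trans hj hmn) hmn
  have hκge : ∀ j : ℕ, ∀ m, max (A j) j ≤ m → j ≤ κ m := by
    intro j m hm
    rw [hκ]
    simp only
    exact Nat.le_findGreatest (le_trans (le_max_right _ _) hm) (le_trans (le_max_left _ _) hm)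
  have hκt : Tendsto κ atTop atTop := by
    rw [tendsto_atTop_atTop]
    intro j
    exact ⟨max (A j) j, fun m hm => hκge j m hm⟩
  refine ⟨κ, hκt, ?_⟩
  rw [almostAll_iff]
  intro ε hε
  obtain ⟨j, hj⟩ := exists_nat_gt (1 / ε)
  refine ⟨max (max (A (j + 1)) (j + 1)) 1, fun N hN => ?_⟩
  have b1 : j + 1 ≤ κ N := hκge (j + 1) N (le_trans (le_max_left _ _) hN)
  have b2 : A (κ N) ≤ N := by
    have h3 : κ N ≠ 0 := by omega
    exact Nat.findGreatest_of_ne_zero (P := fun j => A j ≤ N) (n := N) rfl h3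
  have h4 := hA (κ N) N b2
  have hsub : (Icc 1 N).filter (fun m => ¬ P (κ m) m) ⊆ (Icc 1 N).filter (fun m => ¬ P (κ N) m) := by
    intro m hm
    rw [mem_filter, mem_Icc] at hm
    rw [mem_filter, mem_Icc]
    exact ⟨hm.1, fun h5 => hm.2 (hmono _ _ m (hκmono hm.1.2) h5)⟩
  have h5 : (((Icc 1 N).filter (fun m => ¬ P (κ m) m)).card : ℝ) ≤
      (((Icc 1 N).filter (fun m => ¬ P (κ N) m)).card : ℝ) := by exact_mod_cast card_le_card hsub
  have h6 : 1 / (((κ N : ℕ) : ℝ) + 1) ≤ ε := by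
    rw [div_le_iff₀ (by positivity)]
    rw [div_lt_iff₀ hε] at hj
    have : (j : ℝ) + 1 ≤ ((κ N : ℕ) : ℝ) := by exact_mod_cast b1
    nlinarith
  have hN0 : (0 : ℝ) ≤ N := Nat.cast_nonneg _
  refine le_trans (Nat.cast_le.2 (card_mono' fun m hm => hm)) (h5.trans (h4.trans ?_))
  exact mul_le_mul_of_nonneg_right h6 hN0

theorem formula_mono {ε ε' : ℝ} {W W' n : ℕ} (hε : ε ≤ ε') (hW : W' ≤ W) (hn : 3 ≤ n) (h : Formula ε W n) :
    Formula ε' W' n := by
  have hHL := HL_pos (n := n) (by omega)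
  have hs := Pool.Agent.W93.GB.one_le_sing n
  have hn3 : (3 : ℝ) ≤ n := by exact_mod_cast hn
  have hL1 : 1 ≤ Real.log n := by
    rw [Real.le_log_iff_exp_le (by linarith)]
    have := Real.exp_one_lt_d9
    linarith
  refine ⟨h.1.trans (mul_le_mul_of_nonneg_right hε hHL.le), fun y₁ y₂ h1 h2 h3 => ?_⟩
  have h4 : (n : ℝ) / Real.log n ^ W ≤ (n : ℝ) / Real.log n ^ W' := by
    apply div_le_div_of_nonneg_left (Nat.cast_nonneg _) (by positivity)
    exact pow_le_pow_right₀ hL1 hW
  refine (h.2 y₁ y₂ h1 h2 (h4.trans h3)).trans ?_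
  apply mul_le_mul_of_nonneg_right hε
  have : (0 : ℝ) ≤ (y₂ : ℝ) - y₁ := by
    have : (y₁ : ℝ) ≤ y₂ := by exact_mod_cast h1.le
    linarith
  have h5 : (0 : ℝ) < sing n := by linarith
  positivity

/-- **Sums of two totients and Carmichael's function.** Let `a ≠ -2` be an even integer. There is a function `κ` tending to
infinity such that for almost all `m` the even integer `v = λ(m) + a` is positive, the number of pairs of primes with
`φ(p) + φ(q) = v` is positive and equal to `HL (v + 2)` up to a relative error of at most `1 / (κ m + 1)`, and `v + 2`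
satisfies the formula of Hardy and Littlewood for the number of representations as a sum of two primes also if one of the
primes is restricted to a window of length at least `n / (log n)^(κ m)`. -/
theorem result :
    ∀ a : ℤ, a ≠ -2 → Even a → ∃ κ : ℕ → ℕ, Tendsto κ atTop atTop ∧
      AlmostAll (fun m => ∃ v : ℕ, (v : ℤ) = (lam m : ℤ) + a ∧ 0 < v ∧ Even v ∧ 0 < pairs v ∧
        |(pairs v : ℝ) - HL (v + 2)| ≤ 1 / ((κ m : ℝ) + 1) * HL (v + 2) ∧
        Formula (1 / ((κ m : ℝ) + 1)) (κ m) (v + 2)) := by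
  intro a ha hev
  have ha' : a + 2 ≠ 0 := by omega
  have h3 : AlmostAll (fun m => 3 ≤ (lam m : ℤ) + a) := by
    by_cases ha2 : a = 2
    · have h := general (a - 3) 1 0 (by omega) one_pos
      exact almostAll_and h h 0 (fun m _ h1 _ => by have := h1.1; omega)
    · have h := general (a - 2) 1 0 (by omega) one_pos
      exact almostAll_and h h 0 (fun m _ h1 _ => by have := h1.1; omega)
  obtain ⟨κ, hκ, h⟩ := diagonal (P := fun j m => 3 ≤ (lam m : ℤ) + a ∧ Even ((lam m : ℤ) + a) ∧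
        Formula (1 / ((j : ℝ) + 2)) j ((lam m : ℤ) + (a + 2)).toNat) (by
    intro i j m hij h
    obtain ⟨h1, h0, h2⟩ := h
    refine ⟨h1, h0, formula_mono ?_ hij (by omega) h2⟩
    apply one_div_le_one_div_of_le (by positivity)
    have : (i : ℝ) ≤ j := by exact_mod_cast hij
    linarith) (by
    intro j
    exact almostAll_and h3 (general (a + 2) (1 / ((j : ℝ) + 2)) j ha' (by positivity)) 3
      (fun m hm h1 h2 => by
        have h4 := lam_even hm
        have h5 : Even ((lam m : ℕ) : ℤ) := by exact_mod_cast h4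
        have h6 : Even ((lam m : ℤ) + a) := h5.add hev
        refine ⟨h1, h6, h2.2 ?_⟩
        obtain ⟨t, ht⟩ := h6
        exact ⟨t + 1, by linarith⟩))
  refine ⟨κ, hκ, almostAll_and h h 0 (fun m _ h1 _ => ?_)⟩
  obtain ⟨e1, e2, e3⟩ := h1
  obtain ⟨v, hv⟩ : ∃ v : ℕ, (v : ℤ) = (lam m : ℤ) + a := ⟨((lam m : ℤ) + a).toNat, Int.toNat_of_nonneg (by omega)⟩
  have e4 : ((lam m : ℤ) + (a + 2)).toNat = v + 2 := by omega
  rw [e4] at e3
  have hHL := HL_pos (n := v + 2) (by omega)
  have i1 : (1 : ℝ) / ((κ m : ℝ) + 2) ≤ 1 / ((κ m : ℝ) + 1) :=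
    one_div_le_one_div_of_le (by positivity) (by linarith)
  have i2 : (1 : ℝ) / ((κ m : ℝ) + 2) ≤ 1 / 2 :=
    one_div_le_one_div_of_le (by norm_num) (by linarith [(Nat.cast_nonneg (κ m) : (0 : ℝ) ≤ (κ m : ℝ))])
  have e5 := e3.1
  rw [← pairs_eq] at e5
  refine ⟨v, hv, by omega, ?_, ?_, e5.trans (mul_le_mul_of_nonneg_right i1 hHL.le),
    formula_mono i1 le_rfl (by omega) e3⟩
  · have : Even ((v : ℕ) : ℤ) := by rw [hv]; exact e2
    exact_mod_cast this
  · have h7 : |(pairs v : ℝ) - HL (v + 2)| ≤ 1 / 2 * HL (v + 2) := e5.trans (mul_le_mul_of_nonneg_right i2 hHL.le)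
    have h8 : (0 : ℝ) < pairs v := by
      have := (abs_le.1 h7).1
      linarith
    exact_mod_cast h8

end Pool.Agent.Results.MP_9227a1_nt.CarmichaelFunction
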